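import Mathlib

/-! Left Bregman Chebyshev sets for a Legendre function which is not supercoercive. -/

open Set Filter Topology
open scoped InnerProductSpace

namespace Pool.Agent.Q178.BR

abbrev E (n : ℕ) := EuclideanSpace ℝ (Fin n)

variable {n : ℕ}

/-- Effective domain. -/
def dom (f : E n → EReal) : Set (E n) := {x | f x < ⊤}

/-- The gradient of the real-valued function `f` on the interior of its domain. -/
noncomputable def grad (f : E n → EReal) (y : E n) : E n := gradient (fun z => (f z).toReal) y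

/-- The domain of the subdifferential. -/
def domSub (f : E n → EReal) : Set (E n) :=
  {x | f x < ⊤ ∧ ∃ v : E n, ∀ y, f x + ((⟪v, y - x⟫_ℝ : ℝ) : EReal) ≤ f y}

/-- Legendre functions `ℝⁿ → (-∞, ∞]`: proper, lower semicontinuous, convex, essentially smooth
and essentially strictly convex. -/
structure IsLegendre (f : E n → EReal) : Prop where
  ne_bot : ∀ x, f x ≠ ⊥
  proper : ∃ x, f x ≠ ⊤
  lsc : LowerSemicontinuous f
  convex : ∀ (x y : E n) (a b : ℝ), 0 < a → 0 < b → a + b = 1 →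
    f (a • x + b • y) ≤ (a : EReal) * f x + (b : EReal) * f y
  int_nonempty : (interior (dom f)).Nonempty
  diff : ∀ x ∈ interior (dom f), DifferentiableAt ℝ (fun z => (f z).toReal) x
  steep : ∀ x ∈ frontier (dom f),
    Tendsto (fun y => ‖grad f y‖) (𝓝[interior (dom f)] x) atTop
  strict : ∀ S ⊆ domSub f, Convex ℝ S → StrictConvexOn ℝ S (fun z => (f z).toReal)

open Classical in
/-- The Bregman distance. -/
noncomputable def D (f : E n → EReal) (x y : E n) : EReal :=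
  if f x = ⊤ then ⊤ else (((f x).toReal - (f y).toReal - ⟪grad f y, x - y⟫_ℝ : ℝ) : EReal)

/-- `C` is left Chebyshev: the left Bregman projection of every `y ∈ int dom f` onto `C` is a
singleton. -/
def LeftChebyshev (f : E n → EReal) (C : Set (E n)) : Prop :=
  ∀ y ∈ interior (dom f), ∃! x, x ∈ C ∧ ∀ z ∈ C, D f x y ≤ D f z y

/-- `f(x)/‖x‖ → ∞`. -/
def Supercoercive (f : E n → EReal) : Prop :=
  ∀ M : ℝ, ∃ R : ℝ, ∀ x : E n, R ≤ ‖x‖ → ((M * ‖x‖ : ℝ) : EReal) ≤ f x

/-! ### One variable -/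

theorem sqrt_strict {s t a b : ℝ} (hst : s ≠ t) (ha : 0 < a) (hb : 0 < b) (hab : a + b = 1) :
    √(1 + (a * s + b * t) ^ 2) < a * √(1 + s ^ 2) + b * √(1 + t ^ 2) := by
  have hA : 0 ≤ √(1 + s ^ 2) := Real.sqrt_nonneg _
  have hB : 0 ≤ √(1 + t ^ 2) := Real.sqrt_nonneg _
  have hA2 : √(1 + s ^ 2) ^ 2 = 1 + s ^ 2 := Real.sq_sqrt (by positivity)
  have hB2 : √(1 + t ^ 2) ^ 2 = 1 + t ^ 2 := Real.sq_sqrt (by positivity)
  set A := √(1 + s ^ 2)
  set B := √(1 + t ^ 2)
  have hpos : 0 < (s - t) ^ 2 := by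
    have : s - t ≠ 0 := sub_ne_zero.mpr hst
    positivity
  have hAB : 1 + s * t < A * B := by
    have h1 : (1 + s * t) ^ 2 < (A * B) ^ 2 := by
      rw [mul_pow, hA2, hB2]; nlinarith
    exact lt_of_pow_lt_pow_left₀ 2 (by positivity) h1
  rw [Real.sqrt_lt' (by
    have : 0 < A := by
      have : A ≠ 0 := by intro h; rw [h] at hA2; nlinarith [sq_nonneg s]
      exact lt_of_le_of_ne hA (Ne.symm this)
    positivity)]
  have hb' : b = 1 - a := by linarith
  have : (a * A + b * B) ^ 2 - (1 + (a * s + b * t) ^ 2) = 2 * (a * b) * (A * B - (1 + s * t)) := by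
    have : (a * A + b * B) ^ 2 = a ^ 2 * (1 + s ^ 2) + b ^ 2 * (1 + t ^ 2) + 2 * (a * b) * (A * B) := by
      rw [← hA2, ← hB2]; ring
    rw [this, hb']; ring
  have h2 : 0 < 2 * (a * b) * (A * B - (1 + s * t)) := by
    have : 0 < A * B - (1 + s * t) := by linarith
    positivity
  linarith

/-- the function on the curve -/
noncomputable def phi (A B t : ℝ) : ℝ := t ^ 2 + √(1 + (t ^ 2 / 2) ^ 2) - A * t - B * (t ^ 2 / 2)

theorem phi_mid {A B s t : ℝ} (hB : B < 1) (hst : s ≠ t) :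
    phi A B ((s + t) / 2) < (phi A B s + phi A B t) / 2 := by
  have h1 : √(1 + (((s + t) / 2) ^ 2 / 2) ^ 2) ≤
      √(1 + ((1/2 : ℝ) * (s ^ 2 / 2) + (1/2 : ℝ) * (t ^ 2 / 2)) ^ 2) := by
    apply Real.sqrt_le_sqrt
    have h0 : 0 ≤ ((s + t) / 2) ^ 2 / 2 := by positivity
    have h1 : ((s + t) / 2) ^ 2 / 2 ≤ (1/2 : ℝ) * (s ^ 2 / 2) + (1/2 : ℝ) * (t ^ 2 / 2) := by
      nlinarith [sq_nonneg (s - t)]
    have := pow_le_pow_left₀ h0 h1 2
    linarith
  have h2 : √(1 + ((1/2 : ℝ) * (s ^ 2 / 2) + (1/2 : ℝ) * (t ^ 2 / 2)) ^ 2) ≤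
      (1/2 : ℝ) * √(1 + (s ^ 2 / 2) ^ 2) + (1/2 : ℝ) * √(1 + (t ^ 2 / 2) ^ 2) := by
    by_cases h : s ^ 2 / 2 = t ^ 2 / 2
    · rw [h]
      have : (1/2 : ℝ) * (t ^ 2 / 2) + (1/2 : ℝ) * (t ^ 2 / 2) = t ^ 2 / 2 := by ring
      rw [this]; linarith
    · exact (sqrt_strict h (by norm_num) (by norm_num) (by norm_num)).le
  have hpos : 0 < (s - t) ^ 2 := by
    have : s - t ≠ 0 := sub_ne_zero.mpr hst
    positivity
  have h3 : 0 < (1 - B / 2) * (s - t) ^ 2 := by
    have : 0 < 1 - B / 2 := by linarith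
    positivity
  unfold phi
  nlinarith

theorem phi_unique {A B : ℝ} (hB : B < 1) :
    ∃ t ∈ Icc (0 : ℝ) 1, (∀ s ∈ Icc (0 : ℝ) 1, phi A B t ≤ phi A B s) ∧
      ∀ t' ∈ Icc (0 : ℝ) 1, (∀ s ∈ Icc (0 : ℝ) 1, phi A B t' ≤ phi A B s) → t' = t := by
  have hcont : Continuous (phi A B) := by
    unfold phi
    fun_prop
  obtain ⟨t, ht, hmin⟩ := isCompact_Icc.exists_isMinOn (nonempty_Icc.mpr (zero_le_one' ℝ))
    hcont.continuousOn
  have hmin' : ∀ s ∈ Icc (0 : ℝ) 1, phi A B t ≤ phi A B s := fun s hs => hmin hs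
  refine ⟨t, ht, hmin', fun t' ht' h' => ?_⟩
  by_contra hne
  have hmid := phi_mid (A := A) hB hne
  have hm : (t' + t) / 2 ∈ Icc (0 : ℝ) 1 := by
    constructor <;> linarith [ht.1, ht.2, ht'.1, ht'.2]
  have h1 := hmin' _ hm
  have h2 := h' _ hm
  linarith

/-! ### The function -/

/-- the summands -/
noncomputable def h (i₁ i : Fin n) (s : ℝ) : ℝ := if i = i₁ then √(1 + s ^ 2) else s ^ 2

/-- their derivatives -/
noncomputable def h' (i₁ i : Fin n) (s : ℝ) : ℝ := if i = i₁ then s / √(1 + s ^ 2) else 2 * s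

theorem hasDerivAt_h (i₁ i : Fin n) (s : ℝ) : HasDerivAt (h i₁ i) (h' i₁ i s) s := by
  unfold h h'
  split_ifs
  · have h1 : HasDerivAt (fun s : ℝ => 1 + s ^ 2) (2 * s) s := by
      simpa using (hasDerivAt_pow 2 s).const_add 1
    have h2 := h1.sqrt (by positivity)
    convert h2 using 1
    field_simp
  · simpa using hasDerivAt_pow 2 s

theorem h_strict (i₁ i : Fin n) {s t a b : ℝ} (hst : s ≠ t) (ha : 0 < a) (hb : 0 < b)
    (hab : a + b = 1) : h i₁ i (a * s + b * t) < a * h i₁ i s + b * h i₁ i t := by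
  unfold h
  split_ifs
  · exact sqrt_strict hst ha hb hab
  · have hpos : 0 < a * b * (s - t) ^ 2 := by
      have : s - t ≠ 0 := sub_ne_zero.mpr hst
      positivity
    have hb' : b = 1 - a := by linarith
    have : a * s ^ 2 + b * t ^ 2 - (a * s + b * t) ^ 2 = a * b * (s - t) ^ 2 := by
      rw [hb']; ring
    linarith

/-- the real function -/
noncomputable def F (i₁ : Fin n) (x : E n) : ℝ := ∑ i, h i₁ i (x i)

theorem hasFDerivAt_F (i₁ : Fin n) (y : E n) :
    HasFDerivAt (F i₁) (∑ i, (h' i₁ i (y i)) • (EuclideanSpace.proj i : E n →L[ℝ] ℝ)) y := by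
  unfold F
  refine HasFDerivAt.fun_sum fun i _ => ?_
  have h2 : HasFDerivAt (fun z : E n => z i) (EuclideanSpace.proj i : E n →L[ℝ] ℝ) y :=
    (EuclideanSpace.proj i : E n →L[ℝ] ℝ).hasFDerivAt
  exact HasDerivAt.comp_hasFDerivAt (f := fun z : E n => z i) y (hasDerivAt_h i₁ i (y i)) h2

theorem F_strict (i₁ : Fin n) : StrictConvexOn ℝ univ (F i₁) := by
  refine ⟨convex_univ, fun x _ y _ hxy a b ha hb hab => ?_⟩
  obtain ⟨j, hj⟩ : ∃ j, x j ≠ y j := by
    by_contra hc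
    push Not at hc
    exact hxy (by ext j; exact hc j)
  show F i₁ (a • x + b • y) < a * F i₁ x + b * F i₁ y
  unfold F
  rw [Finset.mul_sum, Finset.mul_sum, ← Finset.sum_add_distrib]
  refine Finset.sum_lt_sum (fun i _ => ?_) ⟨j, Finset.mem_univ _, ?_⟩
  · by_cases hi : x i = y i
    · have : (a • x + b • y) i = x i := by
        simp only [PiLp.add_apply, PiLp.smul_apply, smul_eq_mul, ← hi]
        rw [← add_mul, hab, one_mul]
      rw [this, ← hi, ← add_mul, hab, one_mul]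
    · simpa using (h_strict i₁ i hi ha hb hab).le
  · simpa using h_strict i₁ j hj ha hb hab

theorem legendre (i₁ : Fin n) : IsLegendre (fun x => ((F i₁ x : ℝ) : EReal)) := by
  have hdom : dom (fun x => ((F i₁ x : ℝ) : EReal)) = univ := by
    ext x; simp [dom, EReal.coe_lt_top]
  have hdiff : ∀ x, DifferentiableAt ℝ (F i₁) x := fun x => (hasFDerivAt_F i₁ x).differentiableAt
  have hcont : Continuous (F i₁) := continuous_iff_continuousAt.mpr fun x => (hdiff x).continuousAt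
  refine ⟨fun x => EReal.coe_ne_bot _, ⟨0, EReal.coe_ne_top _⟩, ?_, ?_, ?_, ?_, ?_, ?_⟩
  · exact (continuous_coe_real_ereal.comp hcont).lowerSemicontinuous
  · intro x y a b ha hb hab
    have := (F_strict i₁).convexOn.2 (mem_univ x) (mem_univ y) ha.le hb.le hab
    have h2 : F i₁ (a • x + b • y) ≤ a * F i₁ x + b * F i₁ y := this
    exact_mod_cast h2
  · rw [hdom, interior_univ]; exact univ_nonempty
  · intro x _
    simpa using hdiff x
  · intro x hx
    rw [hdom, frontier_univ] at hx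
    exact absurd hx (notMem_empty x)
  · intro S _ hS
    have := (F_strict i₁).subset (subset_univ S) hS
    simpa using this

theorem not_super (i₁ : Fin n) : ¬ Supercoercive (fun x => ((F i₁ x : ℝ) : EReal)) := by
  intro hc
  obtain ⟨R, hR⟩ := hc 2
  set s : ℝ := max R 1 with hs
  have hs1 : 1 ≤ s := le_max_right _ _
  have hsR : R ≤ s := le_max_left _ _
  have hnorm : ‖(EuclideanSpace.single i₁ s : E n)‖ = s := by
    simp [abs_of_nonneg (by linarith : (0 : ℝ) ≤ s)]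
  have h1 := hR (EuclideanSpace.single i₁ s) (by rw [hnorm]; exact hsR)
  rw [hnorm] at h1
  have h2 : 2 * s ≤ F i₁ (EuclideanSpace.single i₁ s : E n) := EReal.coe_le_coe_iff.mp h1
  have h3 : F i₁ (EuclideanSpace.single i₁ s : E n) = √(1 + s ^ 2) := by
    unfold F
    rw [Finset.sum_eq_single i₁]
    · simp [h]
    · intro j _ hj
      simp [h, hj]
    · intro hh; exact absurd (Finset.mem_univ _) hh
  rw [h3] at h2
  have h4 : √(1 + s ^ 2) < 2 * s := by
    rw [Real.sqrt_lt' (by linarith)]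
    nlinarith
  linarith

/-- the curve -/
noncomputable def c (i₀ i₁ : Fin n) (t : ℝ) : E n :=
  EuclideanSpace.single i₀ t + EuclideanSpace.single i₁ (t ^ 2 / 2)

theorem grad_inner (i₁ : Fin n) (y v : E n) :
    ⟪grad (fun x => ((F i₁ x : ℝ) : EReal)) y, v⟫_ℝ = ∑ i, h' i₁ i (y i) * v i := by
  unfold grad gradient
  simp only [EReal.toReal_coe]
  have h0 : fderiv ℝ (fun z => F i₁ z) y =
      ∑ i, (h' i₁ i (y i)) • (EuclideanSpace.proj i : E n →L[ℝ] ℝ) := (hasFDerivAt_F i₁ y).fderiv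
  rw [InnerProductSpace.toDual_symm_apply, h0]
  simp

theorem sum_curve {i₀ i₁ : Fin n} (h01 : i₀ ≠ i₁) (w : Fin n → ℝ) (t : ℝ) :
    ∑ i, w i * (c i₀ i₁ t) i = w i₀ * t + w i₁ * (t ^ 2 / 2) := by
  rw [Finset.sum_eq_add i₀ i₁ h01]
  · simp [c, h01, h01.symm]
  · intro j _ hj
    simp [c, hj.1, hj.2]
  · intro hh; exact absurd (Finset.mem_univ _) hh
  · intro hh; exact absurd (Finset.mem_univ _) hh

theorem F_curve {i₀ i₁ : Fin n} (h01 : i₀ ≠ i₁) (t : ℝ) :
    F i₁ (c i₀ i₁ t) = t ^ 2 + √(1 + (t ^ 2 / 2) ^ 2) := by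
  unfold F
  rw [Finset.sum_eq_add i₀ i₁ h01]
  · simp [c, h, h01, h01.symm]
  · intro j _ hj
    simp [c, h, hj.1, hj.2]
  · intro hh; exact absurd (Finset.mem_univ _) hh
  · intro hh; exact absurd (Finset.mem_univ _) hh

theorem h'_lt (i₁ : Fin n) (s : ℝ) : h' i₁ i₁ s < 1 := by
  unfold h'
  rw [if_pos rfl, div_lt_one (by positivity)]
  by_cases hs : s ≤ 0
  · exact lt_of_le_of_lt hs (by positivity)
  · rw [Real.lt_sqrt (by linarith)]
    linarith

theorem D_curve {i₀ i₁ : Fin n} (h01 : i₀ ≠ i₁) (y : E n) (t : ℝ) :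
    D (fun x => ((F i₁ x : ℝ) : EReal)) (c i₀ i₁ t) y =
      ((phi (h' i₁ i₀ (y i₀)) (h' i₁ i₁ (y i₁)) t +
        (∑ i, h' i₁ i (y i) * y i - F i₁ y) : ℝ) : EReal) := by
  unfold D
  rw [if_neg (EReal.coe_ne_top _)]
  congr 1
  rw [inner_sub_right, grad_inner, grad_inner, sum_curve h01]
  simp only [EReal.toReal_coe]
  rw [F_curve h01]
  unfold phi
  ring

theorem cheb {i₀ i₁ : Fin n} (h01 : i₀ ≠ i₁) :
    LeftChebyshev (fun x => ((F i₁ x : ℝ) : EReal)) (c i₀ i₁ '' Icc (0 : ℝ) 1) := by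
  intro y _
  obtain ⟨t, ht, hmin, huniq⟩ :=
    phi_unique (A := h' i₁ i₀ (y i₀)) (B := h' i₁ i₁ (y i₁)) (h'_lt i₁ (y i₁))
  refine ⟨c i₀ i₁ t, ⟨mem_image_of_mem _ ht, ?_⟩, ?_⟩
  · rintro _ ⟨s, hs, rfl⟩
    rw [D_curve h01, D_curve h01]
    have := hmin s hs
    exact_mod_cast add_le_add_left this _
  · rintro _ ⟨⟨t', ht', rfl⟩, h'⟩
    have : t' = t := by
      refine huniq t' ht' fun s hs => ?_
      have h2 := h' _ (mem_image_of_mem _ hs)
      rw [D_curve h01, D_curve h01] at h2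
      have h3 := EReal.coe_le_coe_iff.mp h2
      linarith
    rw [this]

theorem not_convex {i₀ i₁ : Fin n} (h01 : i₀ ≠ i₁) : ¬ Convex ℝ (c i₀ i₁ '' Icc (0 : ℝ) 1) := by
  intro hc
  have h0 : c i₀ i₁ 0 ∈ c i₀ i₁ '' Icc (0 : ℝ) 1 := mem_image_of_mem _ (by simp)
  have h1 : c i₀ i₁ 1 ∈ c i₀ i₁ '' Icc (0 : ℝ) 1 := mem_image_of_mem _ (by simp)
  obtain ⟨t, _, ht⟩ := hc h0 h1 (a := 1/2) (b := 1/2) (by norm_num) (by norm_num) (by norm_num)
  have e0 := congrArg (fun z : E n => z i₀) ht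
  have e1 := congrArg (fun z : E n => z i₁) ht
  simp [c, h01, h01.symm] at e0 e1
  rw [e0] at e1
  norm_num at e1

theorem curve_compact (i₀ i₁ : Fin n) : IsCompact (c i₀ i₁ '' Icc (0 : ℝ) 1) := by
  refine isCompact_Icc.image ?_
  have : Continuous (c i₀ i₁) := by
    unfold c
    have e1 : Continuous fun t : ℝ => (EuclideanSpace.single i₀ t : E n) := by
      have : (fun t : ℝ => (EuclideanSpace.single i₀ t : E n)) =
          fun t => t • (EuclideanSpace.single i₀ (1 : ℝ) : E n) := by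
        funext t; ext j; simp [Pi.single_apply]
      rw [this]; fun_prop
    have e2 : Continuous fun t : ℝ => (EuclideanSpace.single i₁ (t ^ 2 / 2) : E n) := by
      have : (fun t : ℝ => (EuclideanSpace.single i₁ (t ^ 2 / 2) : E n)) =
          fun t => (t ^ 2 / 2) • (EuclideanSpace.single i₁ (1 : ℝ) : E n) := by
        funext t; ext j; simp [Pi.single_apply]
      rw [this]; fun_prop
    exact e1.add e2
  exact this

end Pool.Agent.Q178.BR
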